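import Pool.Agent.V7H5.AJ.Final

/-!
# The growth of the kernels of the Abel-Jacobi maps of the powers of a variety

Let `X` be any smooth projective variety over a field (for instance over `ℚ`). Let `ker(X^n)` be
the kernel of the cycle class map of `X^n` to Deligne cohomology with coefficients in `ℚ`, that is,
the sum over all codimensions of the kernels of the Abel-Jacobi maps up to torsion (or the kernel of
any other cycle class map commuting with products, pull-backs and push-forwards). Then:

* The ratios `dim ker(X^n) / rank A(X^n)/num` converge to a limit `L` in `[0, ∞]`.
* `L = 0` if and only if the Abel-Jacobi maps of all powers of `X` are injective up to torsion, in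
  all codimensions; otherwise `L ≥ 1`.
* If `L < d + 1` then all kernels are finite-dimensional, and every class which is obtained from a
  class in a kernel by applying successively `d` numerically trivial correspondences between powers
  of `X` vanishes.
* If the sign conjecture holds for `X`, or if homological and numerical equivalence agree on the
  powers of `X`, then `L` is an integer or infinity.

No conjecture is assumed in the first three statements. Their proof shows that the numerical
motives cut out of the powers of `X` have a dimension function with real values, the unique
character of Perron-Frobenius type, and that every non-zero numerical motive has dimension at least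
one.
-/

set_option autoImplicit false

open scoped ENNReal
open Filter Topology Module
open Pool.Agent.H914 Pool.Agent.H914.VarClass Pool.Agent.H914.VarClass.Obj
open Pool.Agent.Y133.Half Pool.Agent.N132.IXS Pool.Agent.V7H5.AJ

universe u v w x

namespace Pool.Agent.Results.MP_e28333_ag.AbelJacobiKernelsH5

/-- **The growth of the kernels of the Abel-Jacobi maps of the powers of a variety.** -/
theorem result {k : Type u} [Field k] {𝒱 : VarClass k} {ops : CycleOps 𝒱}
    {W : WeilCohomology.{u, v} ops} {C : CycleTheory.{u, v, w} W}
    (T : CycleMap.{u, v, w, x} C.toChowTheory) (X : 𝒱.Obj) :
    ∃ L : ℝ≥0∞, Tendsto (fun n => T.ratio (pw X n)) atTop (𝓝 L) ∧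
      (L = 0 ↔ T.IsInjective X) ∧ (L = 0 ∨ 1 ≤ L) ∧ (∀ d : ℕ, L < d + 1 → T.IsBounded X d) ∧
      (Sign C X ∨ HomNum C X → ∃ N : ℕ∞, L = N) :=
  main T

end Pool.Agent.Results.MP_e28333_ag.AbelJacobiKernelsH5
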