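import Mathlib
import Pool.Agent.N178.HX.Parts
import Pool.Agent.V7H36.AJ2

/-!
# Injectivity of the Abel–Jacobi map from the vanishing of Hodge numbers

Let `X` be a complex abelian variety (`AV`, up to isogeny) in one of the following two classes.

(a) All simple factors of `X` are factors of an abelian variety `A` of dimension at most three (for
instance `X` is a power of `A`).

(b) There are finitely many CM types `T k`, divided into independent blocks, such that for each block
all CM types of the CM fields in this block are conjugate, or the total dimension of the block is at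
most three, or the block consists of all CM types of a Galois CM field of degree at most six; and
each simple factor of `X` is a factor of one of the abelian varieties with the CM types `T k`, or has
no complex multiplication and belongs to one of the classes in `Typ` below (of any dimension), where
an imaginary quadratic field which acts with two different multiplicities on the tangent space must
be the field of an elliptic curve of the first kind (fourfolds with such an action are excluded).

Let `X` be defined over an algebraically closed subfield `k` of `ℂ`, for instance the algebraic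
closure of `ℚ`, and let `M = (X, p)` be a direct summand of the Chow motive of `X`, for example
`M = h(V)`, where `V` is a smooth projective variety of dimension `d` over `ℚ` which becomes over `k`
the image of `X`, or the image of a product of curves of positive genus such that the product of their
Jacobians is `X`. The homology group `H_m(M) = H^(2 d - m)(V)` has the Hodge numbers `h^(s, t)(M)`,
`s + t = m`, and `h^(s, t)(M) = h^(d - s, d - t)(V)`.

The theorem: if `h^(s, t)(M) = 0` for all `s, t` with `min (s, t) ≤ i` and `max (s, t) ≥ i + 2`, then
every cycle `z` of dimension `i` on `M` which is defined over `k` and homologically trivial, and whose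
Abel–Jacobi image is zero, is zero in `CH_i(M) ⊗ ℚ`. So for `V` over `ℚ` the kernel of the map
`CH^j(V)^0 → J^j(V_ℂ)`, `j = d - i`, is a torsion group if `h^(a, b)(V) = 0` for all `a ≥ j` and
`b ≤ j - 2`.

The structures `ChowTheory` (`Pool.Agent.N178.BL.Defs`), `Projectors` (`Pool.Agent.N178.MU.Defs`) and
`AbelJacobi` (`Pool.Agent.N178.AJ.Defs`) collect the known properties of the Chow groups of abelian
varieties and of the Abel–Jacobi map (complex, or `p`-adic for cycles over a number field) which are
used: the formal properties of correspondences; Kimura's theorem that homologically trivial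
endomorphisms of the motive are nilpotent; the semisimplicity of the category of motives of abelian
varieties modulo homological equivalence (Jannsen, Lieberman); the algebraic classes are a system `Sys`
(Lefschetz, Markman); the algebraicity of the isomorphisms `H^n(Y, ℚ) ≅ H_n(Y, ℚ)` given by a
polarization (Lieberman); the projectors of Deninger and Murre, and the vanishing of the cycles of
codimension at most one on `h^n(Y)` for large `n` (Beauville, Künnemann); spreading out and
specialization; and the theorem that a zero-cycle on `h_1(Y)` with trivial Albanese image is zero.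

The proof: by the generalized Hodge conjecture for `X` (starting files, `Pool.Agent.N178.HX`) the
projector `p` is homologically equivalent to a sum of correspondences which factor: for the weights
`m ≥ 2 i + 2` through correspondences of degree `i + 1` or through points; for the weight `2 i + 1`
through `h_1(Y)(i)`; for the weights `m ≤ 2 i` through `h_n(Y)(k)` with `n + k ≤ i + 1`. All of these
kill `z`. For the cycles of all dimensions up to `i` and the stronger condition that all Hodge numbers
with `|s - t| ≥ 2` and `min (s, t) ≤ i` vanish, this is the unused theorem `Pool.Agent.N178.AJ.main` of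
the starting files. Here the condition at the dimension `i` is weaker: for instance `h^(3, 1)(V)` may
be different from zero for cycles of codimension two on a fourfold, and `h^(4, 2)(V)` for cycles of
codimension three on a sixfold.
-/

set_option autoImplicit false

namespace Pool.Agent.Results.MP_e28333_ag.HodgeNumberCriterionH36

open Module NumberField Pool.Agent.Y90 Pool.Agent.R915
open Pool.Agent.H204R3.CM (IsCMType)
open Pool.Agent.W547.KB (CMPair CMAV single)
open Pool.Agent.W547.LN (SameType)
open Pool.Agent.N830.HC (av)
open Pool.Agent.N178.BL (ChowTheory)
open Pool.Agent.N178.MU (Projectors HodgeZero)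
open Pool.Agent.N178.AJ (AbelJacobi)

/-- The classes of simple abelian varieties: dimension at most three; or the endomorphism algebra is
an imaginary quadratic field of signature `(p, q)` with `p, q ≤ 3` (and trivial discriminant for
`(3, 3)`); or Albert type I or II of relative dimension at most three; or dimension five and
endomorphism algebra `ℚ`; or Albert type I or II, any dimension, with the largest possible Hodge
group. -/
def Typ (Y : AV) : Prop :=
  finrank ℚ Y.H ≤ 6 ∨ QuadMult Y ∨ RealMult Y ∨ FiveDim Y ∨ FullHodge Y

/-- Each simple factor `Y` of `X` is a factor of an abelian variety with one of the CM types `T k`; or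
it has no complex multiplication, belongs to one of the classes in `Typ`, and if `ℚ(√-d)` acts on `Y`
with two different multiplicities then `Y` is not a fourfold and the elliptic curve `E` with complex
multiplication by this field is a factor of an abelian variety with one of the CM types `T k`. -/
def HasFactorsIn {K : Type} (T : K → CMPair) (X : AV) : Prop :=
  ∀ Y, IsFactor Y X → (∃ k, IsFactor Y (av (single (T k)))) ∨ (¬ HasCMult Y ∧ Typ Y ∧
    ∀ d : ℚ, Unbalanced Y d → finrank ℚ Y.H ≠ 8 ∧
      ∃ k E, IsFactor E (av (single (T k))) ∧ finrank ℚ E.H = 2 ∧ Unbalanced E d)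

/-- All CM types of the CM fields in the block `B` are conjugate, simultaneously: for each family of
CM types `Ψ k` of the CM fields there is an automorphism of `ℂ` which takes `Ψ k` to the CM type
`T k`, for all `k` in `B`. -/
def AllConjugate {K : Type} (T : K → CMPair) (B : Set K) : Prop :=
  ∀ Ψ : ∀ k, Set ((T k).E →+* ℂ), (∀ k, IsCMType (Ψ k)) →
    ∃ σ : ℂ ≃+* ℂ, ∀ k ∈ B, ∀ φ, φ ∈ Ψ k ↔ (σ : ℂ →+* ℂ).comp φ ∈ (T k).Φ

/-- The CM fields of the block `B` are subfields of the Galois CM field `L`, and all CM types of `L`
occur. -/
def AllTypes {K : Type} (T : K → CMPair) (B : Set K) (L : Type) [Field L] [NumberField L]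
    [IsCMField L] : Prop :=
  IsGalois ℚ L ∧ (∀ k ∈ B, Nonempty ((T k).E →+* L)) ∧
    ∀ (Φ : Set (L →+* ℂ)) (hΦ : IsCMType Φ), ∃ k ∈ B, SameType ⟨L, Φ, hΦ⟩ (T k)

/-- The total dimension of the block is at most three. -/
def DimAtMostThree {K : Type} (T : K → CMPair) (B : Set K) : Prop :=
  ∃ F : Finset K, (∀ k, k ∈ F ↔ k ∈ B) ∧ ∑ k ∈ F, finrank ℚ (T k).E ≤ 6

/-- The blocks `{k | b k = j}` are independent: automorphisms of `ℂ` can be prescribed separately on
the complex embeddings of the CM fields of the different blocks. (The composita of the Galois
closures of the fields of the different blocks are linearly disjoint over `ℚ`.) -/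
def IsIndependent {K J : Type} (T : K → CMPair) (b : K → J) : Prop :=
  ∀ τ : J → (ℂ ≃+* ℂ), ∃ σ : ℂ ≃+* ℂ, ∀ k (φ : (T k).E →+* ℂ),
    (σ : ℂ →+* ℂ).comp φ = (τ (b k) : ℂ →+* ℂ).comp φ

/-- The condition on the block `B`. -/
def IsGoodBlock {K : Type} (T : K → CMPair) (B : Set K) : Prop :=
  AllConjugate T B ∨ (∃ (L : Type) (_ : Field L) (_ : NumberField L) (_ : IsCMField L),
    AllTypes T B L ∧ finrank ℚ L ≤ 6) ∨ DimAtMostThree T B

/-- The classes (a) and (b) of abelian varieties. -/
def IsGood (X : AV) : Prop :=
  (∃ A : AV, finrank ℚ A.H ≤ 6 ∧ ∀ Y, IsFactor Y X → IsFactor Y A) ∨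
    ∃ (K J : Type) (_ : Fintype K) (T : K → CMPair) (b : K → J), IsIndependent T b ∧
      (∀ j, IsGoodBlock T {k | b k = j}) ∧ HasFactorsIn T X

theorem ghc {C : ChowTheory} {X : AV} (hX : IsGood X) : Pool.Agent.N178.HX.GHC C.alg X := by
  rcases hX with ⟨A, hA, hX⟩ | ⟨K, J, _, T, b, hb, hj, hX⟩
  · exact Pool.Agent.N178.HX.pow3 Pool.Agent.N178.HX.t_MAINT Pool.Agent.N178.HX.t_COV
      Pool.Agent.N178.HX.t_POW A X hA hX C.alg
  · exact Pool.Agent.N178.HX.uncond' Pool.Agent.N178.HX.t_MAINT Pool.Agent.N178.HX.t_COV T b hb
      hj C.alg X hX

/-- **Injectivity of the Abel–Jacobi map**, with rational coefficients, on the cycles of dimension `i`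
of the direct summands `M = (X, p)` of the Chow motives of the abelian varieties in the classes (a),
(b), if the Hodge numbers `h^(s, t)(M)` with `min (s, t) ≤ i` and `max (s, t) ≥ i + 2` are zero. The
cycles on `X` are the correspondences from the point `O` to `X`; `A.Triv i z` says that `z` is defined
over `k`, homologically trivial, of dimension `i`, and that its Abel–Jacobi image is zero. -/
theorem result (C : ChowTheory) (K : Projectors C) (O : AV) (A : AbelJacobi C O) (X : AV)
    (hX : IsGood X) (hdef : A.Def X) (p : C.Co X X) (hp : C.IsMotive p) (i : ℕ)
    (hH : ∀ s t : ℕ, min s t ≤ i → i + 2 ≤ max s t → HodgeZero p s t) (z : C.Co O X)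
    (hz : A.Triv i z) (hpz : C.o p z = z) : z = 0 :=
  Pool.Agent.V7H36.AJ2.inj K (ghc hX) hdef hp hH hz hpz

end Pool.Agent.Results.MP_e28333_ag.HodgeNumberCriterionH36
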