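import Pool.Agent.V7H78.TC.AJ2

/-!
# The growth of the Abel-Jacobi kernels in tautological rings

Let `X` be a smooth projective variety over a field, for example over `ℚ`, let `W` be a Weil
cohomology theory with coefficient field `K` (Betti cohomology of `X_ℂ`, `K = ℚ`), and let `C` be
the theory of cycles with coefficients in `K` modulo rational equivalence, on the class `𝒱` of the
products of copies of `X`.

Let `S` be ANY set of classes of cycles on `X` or on powers of `X`, for example finitely many
homologically trivial cycles and an ample class. Let `R(X^n)` be the tautological rings
(`tautRing`): the smallest family of graded subrings of `CH^*(X^n)` which contains `S` and is stable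
under pull-backs and push-forwards along all morphisms between powers of `X`. Suppose that on each
power of `X` some tautological class has degree different from zero (for example because `S`
contains an ample class). Let `J(X^n)` be ideals of `R(X^n)` which consist of homologically trivial
classes, contain the products of any two homologically trivial elements of `R(X^n)`, and are stable
under pull-backs and push-forwards (`IsAJ`). The example we have in mind is the space of the elements
of `R(X^n)` which are homologically trivial and have trivial Abel-Jacobi image, up to torsion; it is
the kernel of the ring homomorphism to Deligne cohomology with rational coefficients, in which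
products of two homologically trivial classes vanish. Then:

* The ratios `dim J(X^n) / rank (R(X^n) / num)` converge to a limit `L` in `[0, ∞]`, where `num` is
  numerical equivalence in `R(X^n)`: `x` is trivial if `deg (x y) = 0` for all `y` in `R(X^n)`.
* `L = 0` if and only if `J(X^n) = 0` for all `n` (the Abel-Jacobi map is injective up to torsion on
  the homologically trivial elements of all rings `R(X^n)`); otherwise `L ≥ 1`.
* If `L < d + 1` then all the spaces `J(X^n)` are finite-dimensional, and the external power
  `x × ⋯ × x` (`d + 2` factors) of every homologically trivial `x` in `R(X^n)` vanishes.
* If some tautological self-correspondence acts as `(-1)^i` on `H^i(X)`, for all `i` (the diagonal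
  if the odd cohomology of `X` vanishes), then `L` is an integer or infinity; and if `L` is finite
  then the Chow motive of `X` is finite-dimensional in the sense of Kimura, by tautological
  projectors: there is an idempotent tautological self-correspondence `p` which acts as the identity
  on the even and as zero on the odd cohomology, such that some exterior power of the motive
  `(X, p)` and some symmetric power of `(X, Δ - p)` vanish.

So moderate growth of the Abel-Jacobi kernels alone, with no hypothesis on the homologically trivial
cycles which are detected by the intermediate Jacobians, implies Kimura finiteness and the
nilpotence of all homologically trivial tautological correspondences. One may also take for `J` the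
smallest family of ideals, which is generated by the products of two homologically trivial classes.

The proof applies the growth law for families of ideals (`Pool/Agent/V7H5/AJ/Law.lean`) to the
theory of the tautological classes (`Pool/Agent/V7H78/TC/Sub.lean`); compositions of two
homologically trivial correspondences lie in `J`, which gives the nilpotence (`AJ1.lean`).
-/

set_option autoImplicit false

open scoped ENNReal
open CategoryTheory Filter Topology Module
open Pool.Agent.H914 Pool.Agent.H914.VarClass Pool.Agent.H914.VarClass.Obj
open Pool.Agent.Y133.Half Pool.Agent.V7H78.TC
open Pool.Agent.N132.IXS (ChowTheory CycleTheory)

universe u v w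

namespace Pool.Agent.Results.MP_e28333_ag.TautologicalAbelJacobiH78

/-- **The growth of the Abel-Jacobi kernels in tautological rings.** -/
theorem result {k : Type u} [Field k] {𝒱 : VarClass k} {ops : CycleOps 𝒱}
    {W : WeilCohomology.{u, v} ops} (C : CycleTheory.{u, v, w} W)
    (S : Gens C) (hS : Polarized C.toChowTheory S)
    (J : Spaces C) (hJ : IsAJ C S J) (X : 𝒱.Obj) :
    ∃ L : ℝ≥0∞,
      Tendsto (fun n => ajRatio C S J (pw X n)) atTop (𝓝 L) ∧
      (L = 0 ↔ ∀ n, ZeroOf (J (pw X n))) ∧
      (L = 0 ∨ 1 ≤ L) ∧
      (∀ d : ℕ, L < d + 1 → ∀ n, SmallAJ C S J (pw X n) d) ∧
      ((∃ z, TautActs C S X (fun i => (-1) ^ i) z) →
        (∃ N : ℕ∞, L = N) ∧ (L < ⊤ → ∃ p, IsEvenPart C S X p ∧ EvenOdd C.toChowTheory X p)) :=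
  aj_law hS hJ X

end Pool.Agent.Results.MP_e28333_ag.TautologicalAbelJacobiH78
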